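import Mathlib
import Pool.Agent.H994E.FDefs
import Pool.Agent.H994E.FA
import Pool.Agent.H994E.FB
import Pool.Agent.H994E.FC
import Pool.Agent.H994E.FD
import Pool.Agent.H994E.FE
import Pool.Agent.H994E.FF
import Pool.Agent.H994E.FG
import Pool.Agent.H994E.FH
import Pool.Agent.H994E.FI2
import Pool.Agent.H994E.FJ
import Pool.Agent.H994E.FK
import Pool.Agent.H994E.FL
import Pool.Agent.H994E.FM
import Pool.Agent.H994E.FN
import Pool.Agent.H994E.FP

/-!
# MP_b5bf4a_co: the function f(n, k)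

`f n k` is the least `e` such that every geometric graph on `n` points with at least `e` edges has
a line, through none of the points, that meets at least `k` edges.
-/

namespace Pool.Agent.Results.MP_b5bf4a_co.ForcingFunction

open Pool.Agent.H994E

/-- `f n k` is the least `e` such that every geometric graph on `n` points (no three collinear) with
at least `e` edges has a straight line that contains none of the points and meets at least `k`
edges. -/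
noncomputable def f (n k : ℕ) : ℕ :=
  sInf {e | ∀ G : GeomGraph, G.pts.card = n → e ≤ G.edges.card →
    ∃ l, IsLine l ∧ (∀ p ∈ G.pts, p ∉ l) ∧ k ≤ G.met l}

theorem f_eq (n k : ℕ) : f n k = fnk n k := rfl

theorem hD : St_FD := fD_proof fB_proof fC_proof

theorem hK : St_FK := fK_proof fA_proof hD fE_proof fF_proof fG_proof fH_proof

theorem hJ : St_FJ := fJ_proof hD fE_proof fF_proof fI2_proof

theorem exists_mult (n q : ℕ) (hq : 1 ≤ q) (h : 2 * q ^ 2 ≤ n) :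
    ∃ m, 1 ≤ m ∧ 2 * m * q ≤ n ∧ n ≤ 2 * m * (q + 1) := by
  have h2 : 0 < 2 * q := by omega
  have h1 : 2 * q * (n / (2 * q)) ≤ n := Nat.mul_div_le _ _
  have h3 : n < 2 * q * (n / (2 * q) + 1) := Nat.lt_mul_div_succ n h2
  have h4 : q ≤ n / (2 * q) := by
    rw [Nat.le_div_iff_mul_le h2]; nlinarith
  refine ⟨n / (2 * q), by omega, ?_, ?_⟩
  · nlinarith
  · nlinarith

theorem dense_bound (n q r : ℕ) (hn : n ≤ 4 * q + 2) :
    n * (2 * r + 1) / (4 * (q + 1)) ≤ n * (r / 2) / (q + 1) + 1 + 2 * (r % 2) := by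
  have hb : 0 < 4 * (q + 1) := by omega
  rw [← Nat.lt_succ_iff, Nat.div_lt_iff_lt_mul hb]
  have h1 : n * (2 * r + 1) ≤ n * (4 * (r / 2)) + n + 2 * n * (r % 2) := by
    have : n * (2 * r + 1) = n * (4 * (r / 2) + 2 * (r % 2) + 1) := by
      congr 1; omega
    rw [this]; apply le_of_eq; ring
  have h2 : n * (r / 2) < (q + 1) * (n * (r / 2) / (q + 1) + 1) :=
    Nat.lt_mul_div_succ _ (by omega)
  have h3 : n * (4 * (r / 2)) = 4 * (n * (r / 2)) := by ring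
  have h4 : Nat.succ (n * (r / 2) / (q + 1) + 1 + 2 * (r % 2)) * (4 * (q + 1)) =
      4 * ((q + 1) * (n * (r / 2) / (q + 1) + 1)) + 4 * (q + 1) + 8 * (q + 1) * (r % 2) := by
    rw [Nat.succ_eq_add_one]; ring
  rw [h4]
  rcases Nat.mod_two_eq_zero_or_one r with h | h <;> rw [h] at h1 ⊢ <;> omega

theorem dense_exact (n q j : ℕ) (h1 : 2 * q + 3 ≤ n) (h2 : n ≤ 4 * q + 2) (h3 : j ≤ q)
    (h4 : 4 * (n * j % (q + 1)) + n < 4 * (q + 1)) :
    f n (q ^ 2 + q + 2 * j + 1) = n * q + n * j / (q + 1) + 1 := by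
  have hj : 2 * j / 2 = j := by omega
  have h5 := hK.2 n q (2 * j) (by omega) h1 h2
  rw [hj] at h5
  have h6 : n * (2 * (2 * j) + 1) / (4 * (q + 1)) ≤ n * j / (q + 1) := by
    rw [← Nat.lt_succ_iff, Nat.div_lt_iff_lt_mul (by omega)]
    have h7 := Nat.div_add_mod (n * j) (q + 1)
    have h8 : n * (2 * (2 * j) + 1) = 4 * (n * j) + n := by ring
    have h9 : Nat.succ (n * j / (q + 1)) * (4 * (q + 1)) =
        4 * ((q + 1) * (n * j / (q + 1))) + 4 * (q + 1) := by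
      rw [Nat.succ_eq_add_one]; ring
    rw [h8, h9]
    omega
  rw [f_eq]
  omega

/-- **Main theorem.** -/
theorem result :
    -- exact values, `k = q ^ 2 + q + 1`
    (∀ n q : ℕ, 1 ≤ q → 2 * q + 1 ≤ n →
      (n ≤ 4 * q + 2 ∨ 2 * q ^ 2 ≤ n ∨ ∃ m, 1 ≤ m ∧ 2 * m * q ≤ n ∧ n ≤ 2 * m * (q + 1)) →
      f n (q ^ 2 + q + 1) = n * q + 1) ∧
    -- exact values, `2 * (q + 1) ∣ n` and `k = q ^ 2 + q + 2 * j + 1`
    (∀ q m j : ℕ, 2 ≤ m → j ≤ q →
      f (2 * m * (q + 1)) (q ^ 2 + q + 2 * j + 1) = 2 * m * (q + 1) * q + 2 * m * j + 1) ∧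
    -- exact values, every `n` and every `k` with `q * (q + 1) < k ≤ n ^ 2 / 4`, `q = n / 2 - 1`
    (∀ q r : ℕ, r ≤ q → f (2 * q + 2) (q ^ 2 + q + r + 1) = (2 * q + 2) * q + r + 1) ∧
    (∀ q r : ℕ, r ≤ 2 * q + 1 →
      f (2 * q + 3) (q ^ 2 + q + r + 1) = (2 * q + 3) * q + r + 1) ∧
    -- exact values in the dense range
    (∀ n q j : ℕ, 2 * q + 3 ≤ n → n ≤ 4 * q + 2 → j ≤ q →
      4 * (n * j % (q + 1)) + n < 4 * (q + 1) →
      f n (q ^ 2 + q + 2 * j + 1) = n * q + n * j / (q + 1) + 1) ∧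
    -- bounds for every `k`
    (∀ n q r : ℕ, r ≤ 2 * q + 1 → 2 * q + 3 ≤ n →
      n * q + n * (r / 2) / (q + 1) + 1 + r % 2 ≤ f n (q ^ 2 + q + r + 1) ∧
      (n ≤ 4 * q + 2 →
        f n (q ^ 2 + q + r + 1) ≤ n * q + n * (2 * r + 1) / (4 * (q + 1)) + 1 ∧
        f n (q ^ 2 + q + r + 1) ≤ n * q + n * (r / 2) / (q + 1) + 1 + r % 2 + (1 + r % 2)) ∧
      (2 * q * (q + 1) ≤ n → Even r →
        f n (q ^ 2 + q + r + 1) ≤ n * q + n * (r / 2) / (q + 1) + 1 + (q + 2) / 2)) ∧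
    (∀ n k s m : ℕ, 1 ≤ s → 1 ≤ m → 1 ≤ k → 2 * m * s ≤ n → n ≤ 2 * m * (s + 1) →
      f n k + m * (s * (s + 1)) ≤ n * s + m * (k - 1) + 1) ∧
    (∀ n k : ℕ, 1 ≤ k → 4 * k ≤ n ^ 2 →
      n * (Real.sqrt k - 1 / 2 - 2 / Real.sqrt k) < f n k ∧
      (f n k : ℝ) ≤ n * (Real.sqrt k - 1 / 2) + 3 * (k * Real.sqrt k) / (4 * n) + 1 ∧
      (f n k : ℝ) ≤ 9 / Real.sqrt 80 * (n * Real.sqrt k) + 1 ∧
      (n ^ 2 ≤ 16 * k → (f n k : ℝ) ≤ n * (Real.sqrt k - 1 / 2) + 1)) := by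
  refine ⟨fun n q hq h1 h2 => ?_, fun q m j hm hj => ?_, fun q r hr => fL_even q r (by omega),
    fun q r hr => fP_odd q r hr, dense_exact,
    fun n q r h1 h2 => ⟨?_, fun h3 => ?_, fun h3 h4 => ?_⟩,
    fun n k s m h1 h2 h3 h4 h5 => fL_up n k s m h1 h2 h3 h4 h5,
    fun n k h1 h2 => ⟨fM_low n k h1 h2, fM_up n k h1 h2, (hJ n k h1 h2).2.1,
      fun h3 => fM_dense n k h1 h2 h3⟩⟩
  · rcases h2 with h2 | h2 | h2
    · exact hK.1 n q hq h1 (Or.inl h2)
    · exact hK.1 n q hq h1 (Or.inr (exists_mult n q hq h2))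
    · exact hK.1 n q hq h1 (Or.inr h2)
  · exact fL_odd q m j (by omega) (by omega) (Or.inl hm)
  · rw [f_eq]
    rcases Nat.mod_two_eq_zero_or_one r with h | h
    · rw [h]; exact fL_low n q r (by omega) h2
    · rw [h]; exact fP_low n q r h1 h h2
  · rw [f_eq]
    have h4 := (hK.2 n q r h1 h2 h3).2
    have h5 := dense_bound n q r h3
    exact ⟨h4, by omega⟩
  · obtain ⟨j, hj⟩ := h4
    obtain rfl : r = 2 * j := by omega
    rw [Nat.mul_div_cancel_left j (by norm_num)]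
    exact fN_win n q j (by omega) h3 h2

end Pool.Agent.Results.MP_b5bf4a_co.ForcingFunction
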